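import Mathlib

set_option autoImplicit false

namespace R199.LineG

universe u

/-- An isomorphism of a graph with its line graph, as a map from vertices to unordered pairs. -/
structure LG {V : Type u} (G : SimpleGraph V) where
  E : V → Sym2 V
  mem : ∀ x, E x ∈ G.edgeSet
  inj : Function.Injective E
  surj : ∀ e ∈ G.edgeSet, ∃ x, E x = e
  adj : ∀ x y, G.Adj x y ↔ x ≠ y ∧ ∃ w, w ∈ E x ∧ w ∈ E y

variable {V : Type u} {G : SimpleGraph V}

/-- from an isomorphism -/
noncomputable def LG.ofIso (φ : G ≃g G.lineGraph) : LG G where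
  E x := (φ x).1
  mem x := (φ x).2
  inj x y h := φ.injective (Subtype.ext h)
  surj e he := by
    obtain ⟨x, hx⟩ := φ.surjective ⟨e, he⟩
    exact ⟨x, by rw [hx]⟩
  adj x y := by
    rw [← φ.map_rel_iff]
    constructor
    · rintro ⟨h1, w, hw1, hw2⟩
      exact ⟨fun h => h1 (by rw [h]), w, hw1, hw2⟩
    · rintro ⟨h1, w, hw1, hw2⟩
      exact ⟨fun h => h1 (φ.injective h), w, hw1, hw2⟩

/-- to an isomorphism -/
noncomputable def LG.toIso (L : LG G) : G ≃g G.lineGraph where
  toEquiv := Equiv.ofBijective (fun x => (⟨L.E x, L.mem x⟩ : G.edgeSet))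
    ⟨fun x y h => L.inj (congrArg Subtype.val h), fun e => by
      obtain ⟨x, hx⟩ := L.surj e.1 e.2
      exact ⟨x, Subtype.ext hx⟩⟩
  map_rel_iff' := by
    intro x y
    rw [L.adj x y]
    constructor
    · rintro ⟨h1, w, hw1, hw2⟩
      exact ⟨fun h => h1 (by rw [h]), w, hw1, hw2⟩
    · rintro ⟨h1, w, hw1, hw2⟩
      exact ⟨fun h => h1 (L.inj (congrArg Subtype.val h)), w, hw1, hw2⟩

theorem LG.adj_of_mem (L : LG G) {x s t : V} (hs : s ∈ L.E x) (ht : t ∈ L.E x) (hst : s ≠ t) :
    G.Adj s t := by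
  have h := L.mem x
  have : L.E x = s(s, t) := (Sym2.mem_and_mem_iff hst).1 ⟨hs, ht⟩
  rw [this] at h
  exact h

theorem LG.eq_or_adj (L : LG G) {x y w : V} (h1 : w ∈ L.E x) (h2 : w ∈ L.E y) :
    x = y ∨ G.Adj x y := by
  by_cases h : x = y
  · exact Or.inl h
  · exact Or.inr ((L.adj x y).2 ⟨h, w, h1, h2⟩)

theorem LG.reach_aux (L : LG G) {p q : V} (w : G.Walk p q) :
    ∀ u v : V, p ∈ L.E u → q ∈ L.E v → G.Reachable u v := by
  induction w with
  | nil =>
    intro u v hu hv
    rcases L.eq_or_adj hu hv with h | h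
    · rw [h]
    · exact h.reachable
  | @cons a b c hab w ih =>
    intro u v hu hv
    obtain ⟨y, hy⟩ := L.surj s(a, b) hab
    have h1 : G.Reachable u y := by
      rcases L.eq_or_adj hu (show a ∈ L.E y by rw [hy]; simp) with h | h
      · rw [h]
      · exact h.reachable
    exact h1.trans (ih y v (by rw [hy]; simp) hv)

theorem LG.reach (L : LG G) {p q u v : V} (h : G.Reachable p q) (hp : p ∈ L.E u)
    (hq : q ∈ L.E v) : G.Reachable u v := by
  obtain ⟨w⟩ := h
  exact L.reach_aux w u v hp hq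

theorem LG.short (L : LG G) {u v : V} (w : G.Walk u v) (hw : 1 ≤ w.length) :
    ∃ p q : V, p ∈ L.E u ∧ q ∈ L.E v ∧ ∃ w' : G.Walk p q, w'.length + 1 ≤ w.length := by
  induction w with
  | nil => simp at hw
  | @cons a b c hab w ih =>
    obtain ⟨-, s, hs1, hs2⟩ := (L.adj a b).1 hab
    by_cases hl : 1 ≤ w.length
    · obtain ⟨p, q, hp, hq, w', hw'⟩ := ih hl
      by_cases hsp : s = p
      · subst hsp
        exact ⟨s, q, hs1, hq, w', by rw [SimpleGraph.Walk.length_cons]; omega⟩
      · refine ⟨s, q, hs1, hq, SimpleGraph.Walk.cons (L.adj_of_mem hs2 hp hsp) w', ?_⟩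
        rw [SimpleGraph.Walk.length_cons, SimpleGraph.Walk.length_cons]; omega
    · have h0 : w.length = 0 := by omega
      have hbc : b = c := SimpleGraph.Walk.eq_of_length_eq_zero h0
      subst hbc
      exact ⟨s, s, hs1, hs2, SimpleGraph.Walk.nil, by simp⟩

/-- a set of vertices which is the set of vertices whose both ends lie in it -/
structure Cl (L : LG G) (D : Set V) : Prop where
  iff : ∀ x, x ∈ D ↔ ∀ w ∈ L.E x, w ∈ D

theorem sym2_attach {D : Set V} {e : Sym2 V} (h : ∀ w ∈ e, w ∈ D) :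
    ∃ e' : Sym2 D, e'.map Subtype.val = e := by
  induction e using Sym2.ind with
  | _ a b =>
    exact ⟨s(⟨a, h a (by simp)⟩, ⟨b, h b (by simp)⟩), by simp⟩

/-- the restriction to a closed set -/
noncomputable def LG.restrict (L : LG G) (D : Set V) (h : Cl L D) : LG (G.induce D) where
  E x := Classical.choose (sym2_attach ((h.iff x.1).1 x.2))
  mem x := by
    have h1 := Classical.choose_spec (sym2_attach ((h.iff x.1).1 x.2))
    revert h1
    generalize Classical.choose (sym2_attach ((h.iff x.1).1 x.2)) = e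
    intro h1
    have h2 := L.mem x.1
    rw [← h1] at h2
    induction e using Sym2.ind with
    | _ a b => simpa using h2
  inj x y hxy := by
    have h1 := Classical.choose_spec (sym2_attach ((h.iff x.1).1 x.2))
    have h2 := Classical.choose_spec (sym2_attach ((h.iff y.1).1 y.2))
    have hxy' : Classical.choose (sym2_attach ((h.iff x.1).1 x.2)) =
      Classical.choose (sym2_attach ((h.iff y.1).1 y.2)) := hxy
    rw [hxy'] at h1
    exact Subtype.ext (L.inj (h1.symm.trans h2))
  surj e he := by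
    have he' : e.map Subtype.val ∈ G.edgeSet := by
      induction e using Sym2.ind with
      | _ a b => simpa using he
    obtain ⟨x, hx⟩ := L.surj _ he'
    have hxD : x ∈ D := by
      rw [h.iff, hx]
      intro w hw
      rw [Sym2.mem_map] at hw
      obtain ⟨a, -, rfl⟩ := hw
      exact a.2
    refine ⟨⟨x, hxD⟩, ?_⟩
    have h1 := Classical.choose_spec (sym2_attach ((h.iff x).1 hxD))
    exact Sym2.map.injective Subtype.val_injective (h1.trans hx)
  adj x y := by
    have h1 := Classical.choose_spec (sym2_attach ((h.iff x.1).1 x.2))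
    have h2 := Classical.choose_spec (sym2_attach ((h.iff y.1).1 y.2))
    revert h1 h2
    generalize Classical.choose (sym2_attach ((h.iff x.1).1 x.2)) = e1
    generalize Classical.choose (sym2_attach ((h.iff y.1).1 y.2)) = e2
    intro h1 h2
    rw [SimpleGraph.induce_adj, L.adj, ← h1, ← h2]
    refine and_congr (by rw [ne_eq, ne_eq, Subtype.ext_iff]) ?_
    constructor
    · rintro ⟨w, hw1, hw2⟩
      rw [Sym2.mem_map] at hw1 hw2
      obtain ⟨a, ha, rfl⟩ := hw1
      obtain ⟨b, hb, hba⟩ := hw2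
      have : b = a := Subtype.ext hba
      subst this
      exact ⟨b, ha, hb⟩
    · rintro ⟨w, hw1, hw2⟩
      exact ⟨w.1, Sym2.mem_map.2 ⟨w, hw1, rfl⟩, Sym2.mem_map.2 ⟨w, hw2, rfl⟩⟩

theorem LG.restrict_map (L : LG G) (D : Set V) (h : Cl L D) (x : D) :
    ((L.restrict D h).E x).map Subtype.val = L.E x.1 :=
  Classical.choose_spec (sym2_attach ((h.iff x.1).1 x.2))

theorem LG.reach_closed (L : LG G) (D : Set V) (h : Cl L D) : ∀ (n : ℕ) (u v : D)
    (w : G.Walk u.1 v.1), w.length ≤ n → (G.induce D).Reachable u v := by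
  intro n
  induction n with
  | zero =>
    intro u v w hw
    have : u.1 = v.1 := SimpleGraph.Walk.eq_of_length_eq_zero (p := w) (by omega)
    rw [Subtype.ext this]
  | succ n ih =>
    intro u v w hw
    by_cases hl : 1 ≤ w.length
    · obtain ⟨p, q, hp, hq, w', hw'⟩ := L.short w hl
      rw [← L.restrict_map D h] at hp hq
      rw [Sym2.mem_map] at hp hq
      obtain ⟨p', hp', rfl⟩ := hp
      obtain ⟨q', hq', rfl⟩ := hq
      exact (L.restrict D h).reach (ih p' q' w' (by omega)) hp' hq'
    · exact ih u v w (by omega)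

end R199.LineG
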