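import Mathlib
import Pool.Agent.R199.LineG.Basic

set_option autoImplicit false

namespace R199.LineG

universe u

variable {V : Type u} {G : SimpleGraph V}

open Classical in
/-- the vertex corresponding to the edge `a z` -/
noncomputable def LG.p (L : LG G) (a z : V) : V :=
  if h : G.Adj a z then Classical.choose (L.surj s(a, z) h) else a

theorem LG.p_spec (L : LG G) {a z : V} (h : G.Adj a z) : L.E (L.p a z) = s(a, z) := by
  unfold LG.p
  rw [dif_pos h]
  exact Classical.choose_spec (L.surj s(a, z) h)

theorem LG.p_inj (L : LG G) {a z z' : V} (h : G.Adj a z) (h' : G.Adj a z')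
    (he : L.p a z = L.p a z') : z = z' := by
  have h1 := L.p_spec h
  rw [he, L.p_spec h'] at h1
  exact (Sym2.congr_right.1 h1).symm

theorem LG.p_eq_of (L : LG G) {a z x : V} (h : L.E x = s(a, z)) : L.p a z = x := by
  have hadj : G.Adj a z := by
    have := L.mem x
    rw [h] at this
    exact this
  exact L.inj ((L.p_spec hadj).trans h.symm)

section fin

variable [∀ v, Fintype (G.neighborSet v)]

open Classical in
theorem LG.nbr (L : LG G) {x a b : V} (h : L.E x = s(a, b)) :
    G.neighborFinset x = ((G.neighborFinset a).erase b).image (L.p a) ∪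
      ((G.neighborFinset b).erase a).image (L.p b) := by
  have hab : G.Adj a b := by
    have := L.mem x
    rw [h] at this
    exact this
  ext y
  simp only [SimpleGraph.mem_neighborFinset, Finset.mem_union, Finset.mem_image, Finset.mem_erase]
  constructor
  · intro hxy
    obtain ⟨hne, w, hw1, hw2⟩ := (L.adj x y).1 hxy
    obtain ⟨z, hz⟩ := Sym2.mem_iff_exists.1 hw2
    have hwz : G.Adj w z := by
      have := L.mem y
      rw [hz] at this
      exact this
    rw [h, Sym2.mem_iff] at hw1
    rcases hw1 with rfl | rfl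
    · refine Or.inl ⟨z, ⟨?_, hwz⟩, L.p_eq_of hz⟩
      rintro rfl
      exact hne (L.inj (h.trans hz.symm))
    · refine Or.inr ⟨z, ⟨?_, hwz⟩, L.p_eq_of hz⟩
      rintro rfl
      exact hne (L.inj (h.trans (Sym2.eq_swap.trans hz.symm)))
  · rintro (⟨z, ⟨hzb, haz⟩, rfl⟩ | ⟨z, ⟨hza, hbz⟩, rfl⟩)
    · rw [L.adj, L.p_spec haz, h]
      refine ⟨?_, a, by simp, by simp⟩
      rintro rfl
      rw [L.p_spec haz] at h
      exact hzb (Sym2.congr_right.1 h)
    · rw [L.adj, L.p_spec hbz, h]
      refine ⟨?_, b, by simp, by simp⟩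
      rintro rfl
      rw [L.p_spec hbz, Sym2.eq_swap (a := a)] at h
      exact hza (Sym2.congr_right.1 h)

open Classical in
theorem LG.disj (L : LG G) {x a b : V} (h : L.E x = s(a, b)) :
    Disjoint (((G.neighborFinset a).erase b).image (L.p a))
      (((G.neighborFinset b).erase a).image (L.p b)) := by
  have hab : G.Adj a b := by
    have := L.mem x
    rw [h] at this
    exact this
  rw [Finset.disjoint_left]
  intro y hy hy'
  simp only [Finset.mem_image, Finset.mem_erase, SimpleGraph.mem_neighborFinset] at hy hy'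
  obtain ⟨z, ⟨hzb, haz⟩, rfl⟩ := hy
  obtain ⟨z', ⟨hza, hbz⟩, he⟩ := hy'
  have h1 := L.p_spec hbz
  rw [he, L.p_spec haz, Sym2.eq_iff] at h1
  rcases h1 with ⟨h1, h2⟩ | ⟨h1, h2⟩
  · exact hab.ne h1
  · exact hzb h2

open Classical in
theorem LG.sum_nbr (L : LG G) {x a b : V} (h : L.E x = s(a, b)) (f : V → ℤ) :
    ∑ y ∈ G.neighborFinset x, f y = ∑ z ∈ (G.neighborFinset a).erase b, f (L.p a z) +
      ∑ z ∈ (G.neighborFinset b).erase a, f (L.p b z) := by
  rw [L.nbr h, Finset.sum_union (L.disj h), Finset.sum_image, Finset.sum_image]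
  · intro z hz z' hz' he
    simp only [Finset.coe_erase, Set.mem_diff, Finset.mem_coe,
      SimpleGraph.mem_neighborFinset] at hz hz'
    exact L.p_inj hz.1 hz'.1 he
  · intro z hz z' hz' he
    simp only [Finset.coe_erase, Set.mem_diff, Finset.mem_coe,
      SimpleGraph.mem_neighborFinset] at hz hz'
    exact L.p_inj hz.1 hz'.1 he

open Classical in
theorem LG.deg_nbr (L : LG G) {x a b : V} (h : L.E x = s(a, b)) :
    (G.degree x : ℤ) = (G.degree a - 1) + (G.degree b - 1) := by
  have hab : G.Adj a b := by
    have := L.mem x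
    rw [h] at this
    exact this
  have h1 := L.sum_nbr h (fun _ => 1)
  have h2 := Finset.card_erase_of_mem (a := b) (s := G.neighborFinset a)
    ((G.mem_neighborFinset a b).2 hab)
  have h3 := Finset.card_erase_of_mem (a := a) (s := G.neighborFinset b)
    ((G.mem_neighborFinset b a).2 hab.symm)
  have h4 : 0 < (G.neighborFinset a).card := Finset.card_pos.2 ⟨b, (G.mem_neighborFinset a b).2 hab⟩
  have h5 : 0 < (G.neighborFinset b).card := Finset.card_pos.2 ⟨a, (G.mem_neighborFinset b a).2 hab.symm⟩
  simp only [Finset.sum_const, nsmul_eq_mul, mul_one] at h1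
  rw [h2, h3] at h1
  unfold SimpleGraph.degree
  omega

/-- the sum of the degrees of the neighbours -/
noncomputable def gsum (x : V) : ℕ := ∑ y ∈ G.neighborFinset x, G.degree y

open Classical in
theorem LG.descent (L : LG G) {x a b : V} (h : L.E x = s(a, b)) (hd : 3 ≤ G.degree a) :
    gsum (G := G) a < gsum (G := G) x := by
  have hab : G.Adj a b := by
    have := L.mem x
    rw [h] at this
    exact this
  have key := L.sum_nbr h (fun y => (G.degree y : ℤ))
  have e1 : ∑ z ∈ (G.neighborFinset a).erase b, ((G.degree (L.p a z) : ℤ)) =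
      ∑ z ∈ (G.neighborFinset a).erase b, (((G.degree a : ℤ) - 2) + G.degree z) := by
    refine Finset.sum_congr rfl fun z hz => ?_
    have hz' := (G.mem_neighborFinset a z).1 (Finset.mem_of_mem_erase hz)
    rw [L.deg_nbr (L.p_spec hz')]
    ring
  have e2 : ∑ z ∈ (G.neighborFinset a).erase b, (((G.degree a : ℤ) - 2) + G.degree z) =
      ((G.degree a : ℤ) - 1) * ((G.degree a : ℤ) - 2) + (gsum (G := G) a - G.degree b) := by
    rw [Finset.sum_add_distrib, Finset.sum_const]
    have h2 := Finset.card_erase_of_mem (a := b) (s := G.neighborFinset a)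
      ((G.mem_neighborFinset a b).2 hab)
    have h3 : ((((G.neighborFinset a).erase b).card : ℕ) : ℤ) = (G.degree a : ℤ) - 1 := by
      rw [h2]
      have : 0 < (G.neighborFinset a).card :=
        Finset.card_pos.2 ⟨b, (G.mem_neighborFinset a b).2 hab⟩
      unfold SimpleGraph.degree
      omega
    have h4 := Finset.sum_erase_add (G.neighborFinset a) (fun z => (G.degree z : ℤ))
      ((G.mem_neighborFinset a b).2 hab)
    have h5 : ((gsum (G := G) a : ℕ) : ℤ) = ∑ z ∈ G.neighborFinset a, (G.degree z : ℤ) := by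
      unfold gsum
      push_cast
      rfl
    rw [h5, ← h4, nsmul_eq_mul, h3]
    ring
  have e3 : ((G.degree b : ℤ) - 1) ≤
      ∑ z ∈ (G.neighborFinset b).erase a, ((G.degree (L.p b z) : ℤ)) := by
    have h2 := Finset.card_erase_of_mem (a := a) (s := G.neighborFinset b)
      ((G.mem_neighborFinset b a).2 hab.symm)
    have h3 : ((((G.neighborFinset b).erase a).card : ℕ) : ℤ) = (G.degree b : ℤ) - 1 := by
      rw [h2]
      have : 0 < (G.neighborFinset b).card :=
        Finset.card_pos.2 ⟨a, (G.mem_neighborFinset b a).2 hab.symm⟩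
      unfold SimpleGraph.degree
      omega
    have h4 : ∑ z ∈ (G.neighborFinset b).erase a, (1 : ℤ) ≤
        ∑ z ∈ (G.neighborFinset b).erase a, ((G.degree (L.p b z) : ℤ)) := by
      refine Finset.sum_le_sum fun z hz => ?_
      obtain ⟨hz1, hz2⟩ := Finset.mem_erase.1 hz
      rw [SimpleGraph.mem_neighborFinset] at hz2
      have hne : L.p b z ≠ x := by
        intro he
        have := L.p_spec hz2
        rw [he, h, Sym2.eq_swap] at this
        exact hz1 (Sym2.congr_right.1 this).symm
      have hadj : G.Adj (L.p b z) x := by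
        rw [L.adj]
        refine ⟨hne, b, ?_, ?_⟩
        · rw [L.p_spec hz2]; simp
        · rw [h]; simp
      have : 0 < G.degree (L.p b z) := by
        rw [SimpleGraph.degree, Finset.card_pos]
        exact ⟨x, (G.mem_neighborFinset _ _).2 hadj⟩
      exact_mod_cast this
    rw [Finset.sum_const, nsmul_eq_mul, mul_one, h3] at h4
    exact h4
  have h5 : ((gsum (G := G) x : ℕ) : ℤ) = ∑ z ∈ G.neighborFinset x, (G.degree z : ℤ) := by
    unfold gsum
    push_cast
    rfl
  have hA : (3 : ℤ) ≤ (G.degree a : ℤ) := by exact_mod_cast hd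
  have : ((gsum (G := G) a : ℕ) : ℤ) < ((gsum (G := G) x : ℕ) : ℤ) := by
    rw [h5, key, e1, e2]
    nlinarith
  exact_mod_cast this

open Classical in
theorem LG.deg_le_two (L : LG G) : ∀ (n : ℕ) (x : V), gsum (G := G) x = n → G.degree x ≤ 2 := by
  intro n
  induction n using Nat.strong_induction_on with
  | _ n ih =>
    intro x hx
    by_contra hcon
    push Not at hcon
    obtain ⟨a, b, hab⟩ : ∃ a b, L.E x = s(a, b) := by
      induction hE : L.E x using Sym2.ind with
      | _ a b => exact ⟨a, b, rfl⟩
    have h1 := L.deg_nbr hab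
    rcases le_or_gt 3 (G.degree a) with h | h
    · have h2 := L.descent hab h
      have h3 := ih _ (by omega) a rfl
      omega
    · have hb : 3 ≤ G.degree b := by omega
      have h2 := L.descent (hab.trans Sym2.eq_swap) hb
      have h3 := ih _ (by omega) b rfl
      omega

end fin

end R199.LineG
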