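import Mathlib
import Pool.Agent.R199.LineG.Deg

set_option autoImplicit false

namespace R199.LineG

universe u

open Cardinal

variable {V : Type u} {G : SimpleGraph V}

theorem LG.nbr_sub (L : LG G) {x a b : V} (h : L.E x = s(a, b)) :
    G.neighborSet x ⊆ L.p a '' G.neighborSet a ∪ L.p b '' G.neighborSet b := by
  intro y hxy
  obtain ⟨hne, w, hw1, hw2⟩ := (L.adj x y).1 hxy
  obtain ⟨z, hz⟩ := Sym2.mem_iff_exists.1 hw2
  have hwz : G.Adj w z := by
    have := L.mem y
    rw [hz] at this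
    exact this
  rw [h, Sym2.mem_iff] at hw1
  rcases hw1 with rfl | rfl
  · exact Or.inl ⟨z, hwz, L.p_eq_of hz⟩
  · exact Or.inr ⟨z, hwz, L.p_eq_of hz⟩

theorem LG.sub_nbr (L : LG G) {x a : V} (h : a ∈ L.E x) :
    L.p a '' G.neighborSet a ⊆ insert x (G.neighborSet x) := by
  rintro _ ⟨z, hz, rfl⟩
  have hz' : G.Adj a z := hz
  by_cases hx : L.p a z = x
  · exact Or.inl hx
  · refine Or.inr ((L.adj _ _).2 ⟨fun he => hx he.symm, a, h, ?_⟩)
    rw [L.p_spec hz']; simp

theorem LG.card_image (L : LG G) (a : V) :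
    #(L.p a '' G.neighborSet a : Set V) = #(G.neighborSet a) :=
  mk_image_eq_of_injOn _ _ fun _ hz _ hz' he => L.p_inj hz hz' he

/-- the vertices of degree less than `κ` form a closed set -/
theorem LG.cl_card (L : LG G) (κ : Cardinal.{u}) (hκ : ℵ₀ ≤ κ) :
    Cl L {x | #(G.neighborSet x) < κ} where
  iff x := by
    have hone : (1 : Cardinal.{u}) < κ := lt_of_lt_of_le one_lt_aleph0 hκ
    constructor
    · intro hx a ha
      have hx' : #(G.neighborSet x) < κ := hx
      show #(G.neighborSet a) < κ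
      rw [← L.card_image a]
      refine lt_of_le_of_lt (mk_le_mk_of_subset (L.sub_nbr ha)) ?_
      exact lt_of_le_of_lt (mk_insert_le) (add_lt_of_lt hκ hx' hone)
    · intro h
      obtain ⟨a, b, hab⟩ : ∃ a b, L.E x = s(a, b) := by
        induction hE : L.E x using Sym2.ind with
        | _ a b => exact ⟨a, b, rfl⟩
      have ha : #(G.neighborSet a) < κ := h a (by rw [hab]; simp)
      have hb : #(G.neighborSet b) < κ := h b (by rw [hab]; simp)
      show #(G.neighborSet x) < κ
      refine lt_of_le_of_lt (mk_le_mk_of_subset (L.nbr_sub hab)) ?_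
      refine lt_of_le_of_lt (mk_union_le _ _) ?_
      rw [L.card_image a, L.card_image b]
      exact add_lt_of_lt hκ ha hb

theorem filtration (φ : G ≃g G.lineGraph) (κ : Cardinal.{u}) (hκ : ℵ₀ ≤ κ) :
    Nonempty (G.induce {x | #(G.neighborSet x) < κ} ≃g
      (G.induce {x | #(G.neighborSet x) < κ}).lineGraph) ∧
    ∀ x y : {x | #(G.neighborSet x) < κ}, G.Reachable x.1 y.1 →
      (G.induce {x | #(G.neighborSet x) < κ}).Reachable x y := by
  have L := LG.ofIso φ
  refine ⟨⟨(L.restrict _ (L.cl_card κ hκ)).toIso⟩, ?_⟩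
  rintro x y ⟨w⟩
  exact L.reach_closed _ (L.cl_card κ hκ) w.length x y w le_rfl

theorem two_nbrs (φ : G ≃g G.lineGraph) (x : V) (hx : #(G.neighborSet x) < ℵ₀) :
    #{y | G.Adj x y ∧ #(G.neighborSet y) < ℵ₀} ≤ 2 := by
  classical
  have L := LG.ofIso φ
  set D : Set V := {x | #(G.neighborSet x) < ℵ₀} with hD
  have L' := L.restrict D (L.cl_card ℵ₀ le_rfl)
  have hfin : ∀ v : D, Finite ((G.induce D).neighborSet v) := by
    intro v
    have hv : #(G.neighborSet v.1) < ℵ₀ := v.2
    rw [lt_aleph0_iff_finite] at hv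
    refine Finite.of_injective
      (fun y : (G.induce D).neighborSet v => (⟨y.1.1, y.2⟩ : G.neighborSet v.1)) ?_
    intro y z h
    exact Subtype.ext (Subtype.ext (congrArg (fun t : G.neighborSet v.1 => t.1) h))
  have : ∀ v : D, Fintype ((G.induce D).neighborSet v) := fun v => Fintype.ofFinite _
  have h2 := L'.deg_le_two _ ⟨x, hx⟩ rfl
  have h3 : #{y | G.Adj x y ∧ #(G.neighborSet y) < ℵ₀} ≤
      #((G.induce D).neighborSet ⟨x, hx⟩) := by
    refine Cardinal.mk_le_of_injective
      (f := fun y => (⟨⟨y.1, y.2.2⟩, y.2.1⟩ : (G.induce D).neighborSet ⟨x, hx⟩)) ?_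
    intro y z h
    exact Subtype.ext (congrArg (fun t : (G.induce D).neighborSet ⟨x, hx⟩ => t.1.1) h)
  refine h3.trans ?_
  rw [Cardinal.mk_fintype, SimpleGraph.card_neighborSet_eq_degree]
  exact_mod_cast h2

end R199.LineG
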