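import Mathlib
import Pool.Agent.R199.LineG.Card

set_option autoImplicit false

namespace R199.LineG

universe u

open Cardinal

/-- terms -/
inductive Tm (B : Type u) : Type u
  | base : B → Tm B
  | pair : Tm B → Tm B → Tm B

variable {B : Type u}

/-- the two ends of a term -/
def supp (c : B) (f : B → B) : Tm B → Sym2 (Tm B)
  | Tm.base b => s(Tm.base c, Tm.base (f b))
  | Tm.pair u v => s(u, v)

/-- adjacency of terms -/
def tadj (c : B) (f : B → B) (x y : Tm B) : Prop :=
  x ≠ y ∧ ∃ w, w ∈ supp c f x ∧ w ∈ supp c f y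

/-- the terms that are vertices -/
def valid (c : B) (f : B → B) : Tm B → Prop
  | Tm.base _ => True
  | Tm.pair u v => valid c f u ∧ valid c f v ∧ WellOrderingRel u v ∧ tadj c f u v ∧
      ∀ b, s(u, v) ≠ supp c f (Tm.base b)

theorem supp_valid (c : B) (f : B → B) (x : Tm B) (hx : valid c f x) :
    ∀ w ∈ supp c f x, w ∈ {t | valid c f t} := by
  intro w hw
  cases x with
  | base b =>
    rcases Sym2.mem_iff.1 hw with rfl | rfl
    · exact trivial
    · exact trivial
  | pair u v =>
    rcases Sym2.mem_iff.1 hw with rfl | rfl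
    · exact hx.1
    · exact hx.2.1

/-- the graph on the valid terms -/
def gr (c : B) (f : B → B) : SimpleGraph {t | valid c f t} where
  Adj x y := tadj c f x.1 y.1
  symm := ⟨fun x y h => ⟨h.1.symm, h.2.imp fun _ hw => ⟨hw.2, hw.1⟩⟩⟩
  loopless := ⟨fun x h => h.1 rfl⟩

theorem supp_adj (c : B) (f : B → B) (hc : ∀ b, f b ≠ c) (x : Tm B) (hx : valid c f x) :
    ∀ u v, supp c f x = s(u, v) → tadj c f u v := by
  intro u v h
  have hsymm : ∀ u v, tadj c f u v → tadj c f v u := fun u v h =>
    ⟨h.1.symm, h.2.imp fun _ hw => ⟨hw.2, hw.1⟩⟩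
  cases x with
  | base b =>
    have h0 : tadj c f (Tm.base c) (Tm.base (f b)) := by
      refine ⟨fun he => hc b ?_, Tm.base c, by simp [supp], by simp [supp]⟩
      injection he with he
      exact he.symm
    have h' : s(Tm.base c, Tm.base (f b)) = s(u, v) := h
    rw [Sym2.eq_iff] at h'
    rcases h' with ⟨rfl, rfl⟩ | ⟨rfl, rfl⟩
    · exact h0
    · exact hsymm _ _ h0
  | pair a b =>
    have h0 : tadj c f a b := hx.2.2.2.1
    have h' : s(a, b) = s(u, v) := h
    rw [Sym2.eq_iff] at h'
    rcases h' with ⟨rfl, rfl⟩ | ⟨rfl, rfl⟩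
    · exact h0
    · exact hsymm _ _ h0

theorem supp_inj (c : B) (f : B → B) (hf : Function.Injective f) (x y : Tm B)
    (hx : valid c f x) (hy : valid c f y) (h : supp c f x = supp c f y) : x = y := by
  cases x with
  | base b =>
    cases y with
    | base b' =>
      have h' : s(Tm.base c, Tm.base (f b)) = s(Tm.base c, Tm.base (f b')) := h
      have h2 := Sym2.congr_right.1 h'
      injection h2 with h3
      rw [hf h3]
    | pair u v => exact absurd h.symm (hy.2.2.2.2 b)
  | pair u v =>
    cases y with
    | base b => exact absurd h (hx.2.2.2.2 b)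
    | pair u' v' =>
      have h' : s(u, v) = s(u', v') := h
      rw [Sym2.eq_iff] at h'
      rcases h' with ⟨rfl, rfl⟩ | ⟨rfl, rfl⟩
      · rfl
      · exact absurd hy.2.2.1 (asymm hx.2.2.1)

/-- the isomorphism -/
noncomputable def lg (c : B) (f : B → B) (hf : Function.Injective f) (hc : ∀ b, f b ≠ c) :
    LG (gr c f) where
  E x := Classical.choose (sym2_attach (supp_valid c f x.1 x.2))
  mem x := by
    have h1 := Classical.choose_spec (sym2_attach (supp_valid c f x.1 x.2))
    revert h1
    generalize Classical.choose (sym2_attach (supp_valid c f x.1 x.2)) = e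
    intro h1
    induction e using Sym2.ind with
    | _ a b => exact supp_adj c f hc x.1 x.2 a.1 b.1 h1.symm
  inj x y hxy := by
    have h1 := Classical.choose_spec (sym2_attach (supp_valid c f x.1 x.2))
    have h2 := Classical.choose_spec (sym2_attach (supp_valid c f y.1 y.2))
    have hxy' : Classical.choose (sym2_attach (supp_valid c f x.1 x.2)) =
      Classical.choose (sym2_attach (supp_valid c f y.1 y.2)) := hxy
    rw [hxy'] at h1
    exact Subtype.ext (supp_inj c f hf x.1 y.1 x.2 y.2 (h1.symm.trans h2))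
  surj e he := by
    have key : ∃ t, ∃ ht : valid c f t, supp c f t = e.map Subtype.val := by
      induction e using Sym2.ind with
      | _ a b =>
        have hab : tadj c f a.1 b.1 := he
        by_cases hb : ∃ b', s(a.1, b.1) = supp c f (Tm.base b')
        · obtain ⟨b', hb'⟩ := hb
          exact ⟨Tm.base b', trivial, hb'.symm⟩
        · push Not at hb
          rcases trichotomous_of (WellOrderingRel : Tm B → Tm B → Prop) a.1 b.1 with h | h | h
          · exact ⟨Tm.pair a.1 b.1, ⟨a.2, b.2, h, hab, hb⟩, rfl⟩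
          · exact absurd h hab.1
          · refine ⟨Tm.pair b.1 a.1, ⟨b.2, a.2, h,
              ⟨hab.1.symm, hab.2.imp fun _ hw => ⟨hw.2, hw.1⟩⟩, ?_⟩, Sym2.eq_swap⟩
            intro b' hb'
            exact hb b' (Sym2.eq_swap.trans hb')
    obtain ⟨t, ht, hte⟩ := key
    refine ⟨⟨t, ht⟩, ?_⟩
    have h1 := Classical.choose_spec (sym2_attach (supp_valid c f t ht))
    exact Sym2.map.injective Subtype.val_injective (h1.trans hte)
  adj x y := by
    have h1 := Classical.choose_spec (sym2_attach (supp_valid c f x.1 x.2))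
    have h2 := Classical.choose_spec (sym2_attach (supp_valid c f y.1 y.2))
    revert h1 h2
    generalize Classical.choose (sym2_attach (supp_valid c f x.1 x.2)) = e1
    generalize Classical.choose (sym2_attach (supp_valid c f y.1 y.2)) = e2
    intro h1 h2
    show tadj c f x.1 y.1 ↔ _
    unfold tadj
    rw [← h1, ← h2]
    refine and_congr (by rw [ne_eq, ne_eq, Subtype.ext_iff]) ?_
    constructor
    · rintro ⟨w, hw1, hw2⟩
      rw [Sym2.mem_map] at hw1 hw2
      obtain ⟨a, ha, rfl⟩ := hw1
      obtain ⟨b, hb, hba⟩ := hw2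
      have : b = a := Subtype.ext hba
      subst this
      exact ⟨b, ha, hb⟩
    · rintro ⟨w, hw1, hw2⟩
      exact ⟨w.1, Sym2.mem_map.2 ⟨w, hw1, rfl⟩, Sym2.mem_map.2 ⟨w, hw2, rfl⟩⟩

theorem lg_mem (c : B) (f : B → B) (hf : Function.Injective f) (hc : ∀ b, f b ≠ c)
    (x a : {t | valid c f t}) (h : a.1 ∈ supp c f x.1) : a ∈ (lg c f hf hc).E x := by
  have h1 : ((lg c f hf hc).E x).map Subtype.val = supp c f x.1 :=
    Classical.choose_spec (sym2_attach (supp_valid c f x.1 x.2))
  rw [← h1, Sym2.mem_map] at h
  obtain ⟨b, hb, hba⟩ := h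
  rw [← Subtype.ext hba]
  exact hb

/-- Polish notation -/
def enc : Tm B → List (Option B)
  | Tm.base b => [some b]
  | Tm.pair u v => none :: (enc u ++ enc v)

theorem enc_inj : ∀ (x y : Tm B) (l l' : List (Option B)), enc x ++ l = enc y ++ l' →
    x = y ∧ l = l' := by
  intro x
  induction x with
  | base b =>
    intro y l l' h
    cases y with
    | base b' =>
      simp only [enc, List.cons_append, List.nil_append, List.cons.injEq, Option.some.injEq] at h
      exact ⟨by rw [h.1], h.2⟩
    | pair u v => simp [enc] at h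
  | pair u v ihu ihv =>
    intro y l l' h
    cases y with
    | base b' => simp [enc] at h
    | pair u' v' =>
      simp only [enc, List.cons_append, List.cons.injEq, true_and, List.append_assoc] at h
      obtain ⟨h1, h2⟩ := ihu _ _ _ h
      obtain ⟨h3, h4⟩ := ihv _ _ _ h2
      exact ⟨by rw [h1, h3], h4⟩

theorem card_tm [Infinite B] : #(Tm B) ≤ #B := by
  have h1 : #(Tm B) ≤ #(List (Option B)) := by
    refine mk_le_of_injective (f := enc) ?_
    intro x y h
    exact (enc_inj x y [] [] (by rw [h])).1
  rw [mk_list_eq_mk, mk_option, add_one_eq (aleph0_le_mk B)] at h1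
  exact h1

theorem exist (κ : Cardinal.{u}) (hκ : ℵ₀ ≤ κ) : ∃ (V : Type u) (G : SimpleGraph V),
    #V = κ ∧ G.Connected ∧ Nonempty (G ≃g G.lineGraph) ∧ (∀ x, #(G.neighborSet x) = κ) ∧
    ∃ S : Set V, #S = κ ∧ G.IsClique S := by
  obtain ⟨B, rfl⟩ : ∃ B : Type u, #B = κ := ⟨κ.out, mk_out κ⟩
  have hB : Infinite B := infinite_iff.2 hκ
  obtain ⟨g⟩ : Nonempty (Option B ≃ B) := by
    rw [← Cardinal.eq, mk_option, add_one_eq hκ]
  set c : B := g none with hcdef
  set f : B → B := fun b => g (some b) with hfdef
  have hf : Function.Injective f := fun a b h => Option.some.inj (g.injective h)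
  have hc : ∀ b, f b ≠ c := fun b h => by
    have := g.injective h
    cases this
  set L := lg c f hf hc with hL
  have hbadj : ∀ b b', b ≠ b' → (gr c f).Adj ⟨Tm.base b, trivial⟩ ⟨Tm.base b', trivial⟩ := by
    intro b b' h
    refine ⟨fun he => h ?_, Tm.base c, by simp [supp], by simp [supp]⟩
    injection he
  have hle : #{t | valid c f t} ≤ #B := (mk_subtype_le _).trans card_tm
  have hbinj : Function.Injective (fun b : B => (⟨Tm.base b, trivial⟩ : {t | valid c f t})) := by
    intro b b' h
    have := congrArg Subtype.val h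
    injection this
  refine ⟨{t | valid c f t}, gr c f, ?_, ?_, ⟨L.toIso⟩, ?_, ?_⟩
  · exact le_antisymm hle (mk_le_of_injective hbinj)
  · have hne : Nonempty {t | valid c f t} := ⟨⟨Tm.base c, trivial⟩⟩
    have key : ∀ (t : Tm B) (ht : valid c f t),
        (gr c f).Reachable ⟨t, ht⟩ ⟨Tm.base c, trivial⟩ := by
      intro t
      induction t with
      | base b =>
        intro ht
        by_cases h : b = c
        · subst h
          exact SimpleGraph.Reachable.refl _
        · exact (hbadj b c h).reachable
      | pair u v ihu ihv =>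
        intro ht
        refine L.reach (ihu ht.1) (lg_mem c f hf hc _ _ ?_) (lg_mem c f hf hc _ _ ?_)
        · simp [supp]
        · simp [supp]
    exact ⟨fun x y => (key x.1 x.2).trans (key y.1 y.2).symm⟩
  · have key : ∀ (t : Tm B) (ht : valid c f t), #B ≤ #((gr c f).neighborSet ⟨t, ht⟩) := by
      intro t
      induction t with
      | base b =>
        intro ht
        have h1 : #({b}ᶜ : Set B) = #B := mk_compl_of_infinite _ (by
          rw [mk_singleton]
          exact lt_of_lt_of_le one_lt_aleph0 hκ)
        rw [← h1]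
        refine mk_le_of_injective (f := fun b' : ({b}ᶜ : Set B) =>
          (⟨⟨Tm.base b'.1, trivial⟩, hbadj b b'.1 fun h => b'.2 h.symm⟩ :
            (gr c f).neighborSet ⟨Tm.base b, ht⟩)) ?_
        intro x y h
        have h2 := congrArg (fun t : (gr c f).neighborSet ⟨Tm.base b, ht⟩ => t.1) h
        exact Subtype.ext (hbinj h2)
      | pair u v ihu ihv =>
        intro ht
        have h1 := ihu ht.1
        have h2 := L.sub_nbr (x := ⟨Tm.pair u v, ht⟩) (a := ⟨u, ht.1⟩)
          (lg_mem c f hf hc _ _ (by simp [supp]))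
        by_contra hcon
        push Not at hcon
        have h3 := (mk_le_mk_of_subset h2).trans mk_insert_le
        rw [L.card_image] at h3
        have h4 := add_lt_of_lt hκ hcon (lt_of_lt_of_le one_lt_aleph0 hκ)
        exact absurd (h1.trans h3) (not_le.2 h4)
    intro x
    exact le_antisymm ((mk_set_le _).trans hle) (key x.1 x.2)
  · refine ⟨Set.range (fun b : B => (⟨Tm.base b, trivial⟩ : {t | valid c f t})),
      mk_range_eq _ hbinj, ?_⟩
    rintro _ ⟨b, rfl⟩ _ ⟨b', rfl⟩ h
    exact hbadj b b' fun he => h (by rw [he])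

end R199.LineG
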