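import Mathlib
import Pool.Agent.R199.LineG.Card

set_option autoImplicit false

namespace R199.LineG

universe u

variable {W : Type u} {H : SimpleGraph W}

section leaf

variable [∀ v, Fintype (H.neighborSet v)]

open Classical in
/-- the sum of `e` over the neighbours -/
noncomputable def esum (e : W → ℕ) (x : W) : ℕ := ∑ y ∈ H.neighborFinset x, e y

open Classical in
theorem LG.leaf_of_excess (L : LG H) (e : W → ℕ)
    (he : ∀ x a b, L.E x = s(a, b) → e x = e a + e b) (m : ℕ) (hm : 1 ≤ m)
    (hmin : ∀ y, 1 ≤ e y → m ≤ e y) : ∀ (n : ℕ) (x : W), e x = m → esum (H := H) e x = n →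
    ∃ r : W, H.degree r ≤ 1 := by
  intro n
  induction n using Nat.strong_induction_on with
  | _ n ih =>
    intro x hx hn
    obtain ⟨a, b, hab, ha, hb⟩ : ∃ a b, L.E x = s(a, b) ∧ e a = m ∧ e b = 0 := by
      obtain ⟨a, b, hab⟩ : ∃ a b, L.E x = s(a, b) := by
        induction hE : L.E x using Sym2.ind with
        | _ a b => exact ⟨a, b, rfl⟩
      have h1 := he x a b hab
      by_cases h0 : e a = 0
      · exact ⟨b, a, hab.trans Sym2.eq_swap, by omega, h0⟩
      · have h2 := hmin a (by omega)
        exact ⟨a, b, hab, by omega, by omega⟩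
    by_cases hd : H.degree a ≤ 1
    · exact ⟨a, hd⟩
    · refine ih (esum (H := H) e a) ?_ a ha rfl
      have hadj : H.Adj a b := by
        have := L.mem x
        rw [hab] at this
        exact this
      have key := L.sum_nbr hab (fun y => (e y : ℤ))
      have e1 : ∑ z ∈ (H.neighborFinset a).erase b, ((e (L.p a z) : ℤ)) =
          ∑ z ∈ (H.neighborFinset a).erase b, ((m : ℤ) + e z) := by
        refine Finset.sum_congr rfl fun z hz => ?_
        have hz' := (H.mem_neighborFinset a z).1 (Finset.mem_of_mem_erase hz)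
        rw [he _ _ _ (L.p_spec hz'), ha]
        push_cast
        ring
      have e2 : ∑ z ∈ (H.neighborFinset a).erase b, ((m : ℤ) + e z) =
          ((H.degree a : ℤ) - 1) * (m : ℤ) + (esum (H := H) e a) := by
        rw [Finset.sum_add_distrib, Finset.sum_const]
        have h2 := Finset.card_erase_of_mem (a := b) (s := H.neighborFinset a)
          ((H.mem_neighborFinset a b).2 hadj)
        have h3 : ((((H.neighborFinset a).erase b).card : ℕ) : ℤ) = (H.degree a : ℤ) - 1 := by
          rw [h2]
          have : 0 < (H.neighborFinset a).card :=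
            Finset.card_pos.2 ⟨b, (H.mem_neighborFinset a b).2 hadj⟩
          unfold SimpleGraph.degree
          omega
        have h4 := Finset.sum_erase_add (H.neighborFinset a) (fun z => (e z : ℤ))
          ((H.mem_neighborFinset a b).2 hadj)
        have h5 : ((esum (H := H) e a : ℕ) : ℤ) = ∑ z ∈ H.neighborFinset a, (e z : ℤ) := by
          unfold esum
          push_cast
          rfl
        rw [h5, ← h4, nsmul_eq_mul, h3, hb]
        push_cast
        ring
      have e3 : (0 : ℤ) ≤ ∑ z ∈ (H.neighborFinset b).erase a, ((e (L.p b z) : ℤ)) :=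
        Finset.sum_nonneg fun z _ => by positivity
      have h5 : ((esum (H := H) e x : ℕ) : ℤ) = ∑ z ∈ H.neighborFinset x, (e z : ℤ) := by
        unfold esum
        push_cast
        rfl
      have hd' : (2 : ℤ) ≤ (H.degree a : ℤ) := by
        have : 2 ≤ H.degree a := by omega
        exact_mod_cast this
      have hm' : (1 : ℤ) ≤ (m : ℤ) := by exact_mod_cast hm
      have : ((esum (H := H) e a : ℕ) : ℤ) < ((n : ℕ) : ℤ) := by
        rw [← hn, h5, key, e1, e2]
        nlinarith
      exact_mod_cast this

theorem LG.infinite_of_leaf (L : LG H) (hdeg : ∀ x, H.degree x ≤ 2) (r : W)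
    (hr : H.degree r ≤ 1) : Infinite W := by
  classical
  by_contra hfin
  rw [not_infinite_iff_finite] at hfin
  have := Fintype.ofFinite W
  have h1 := H.sum_degrees_eq_twice_card_edges
  have h2 : H.edgeFinset.card = Fintype.card W := by
    rw [← Finset.card_univ]
    symm
    refine Finset.card_bij (fun x _ => L.E x) ?_ ?_ ?_
    · intro x _
      rw [SimpleGraph.mem_edgeFinset]
      exact L.mem x
    · intro x _ y _ h
      exact L.inj h
    · intro e he
      rw [SimpleGraph.mem_edgeFinset] at he
      obtain ⟨x, hx⟩ := L.surj e he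
      exact ⟨x, Finset.mem_univ _, hx⟩
  have h3 : ∑ v, H.degree v < ∑ v : W, 2 := by
    refine Finset.sum_lt_sum (fun v _ => hdeg v) ⟨r, Finset.mem_univ _, by omega⟩
  rw [Finset.sum_const, Finset.card_univ, smul_eq_mul] at h3
  have h4 : ∑ v, H.degree v = 2 * H.edgeFinset.card := by
    rw [← h1]
    exact Finset.sum_congr rfl fun v _ =>
      congrArg (fun i => @SimpleGraph.degree _ H v i) (Subsingleton.elim _ _)
  omega

theorem three_nbrs (hdeg : ∀ x, H.degree x ≤ 2) {x a b c : W} (ha : H.Adj x a) (hb : H.Adj x b)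
    (hc : H.Adj x c) (hab : a ≠ b) (hac : a ≠ c) (hbc : b ≠ c) : False := by
  classical
  have h1 : ({a, b, c} : Finset W) ⊆ H.neighborFinset x := by
    intro y hy
    simp only [Finset.mem_insert, Finset.mem_singleton] at hy
    rw [SimpleGraph.mem_neighborFinset]
    rcases hy with rfl | rfl | rfl <;> assumption
  have h2 := Finset.card_le_card h1
  rw [Finset.card_eq_three.2 ⟨a, b, c, hab, hac, hbc, rfl⟩] at h2
  have := hdeg x
  unfold SimpleGraph.degree at this
  omega

theorem two_nbrs_leaf {r a b : W} (hr : H.degree r ≤ 1) (ha : H.Adj r a) (hb : H.Adj r b) :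
    a = b := by
  classical
  by_contra hab
  have h1 : ({a, b} : Finset W) ⊆ H.neighborFinset r := by
    intro y hy
    simp only [Finset.mem_insert, Finset.mem_singleton] at hy
    rw [SimpleGraph.mem_neighborFinset]
    rcases hy with rfl | rfl <;> assumption
  have h2 := Finset.card_le_card h1
  rw [Finset.card_pair hab] at h2
  unfold SimpleGraph.degree at hr
  omega

/-- the predecessor on a shortest path -/
theorem exists_pred (hconn : H.Connected) (r x : W) (n : ℕ) (h : H.dist r x = n + 1) :
    ∃ y, H.Adj y x ∧ H.dist r y = n := by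
  obtain ⟨w, hw⟩ := (hconn r x).exists_walk_length_eq_dist
  rw [h] at hw
  obtain ⟨y, w', hyx, hw'⟩ : ∃ (y : W) (w' : H.Walk r y) (_ : H.Adj y x), w'.length = n := by
    have hnil : ¬ w.Nil := by
      intro hn
      rw [SimpleGraph.Walk.nil_iff_length_eq] at hn
      omega
    refine ⟨w.penultimate, w.dropLast, w.adj_penultimate hnil, ?_⟩
    rw [SimpleGraph.Walk.length_dropLast]
    omega
  refine ⟨y, hyx, ?_⟩
  have h1 := SimpleGraph.dist_le w'
  have h2 : H.dist r x ≤ H.dist r y + 1 := by
    have h3 := hconn.dist_triangle (u := r) (v := y) (w := x)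
    rw [SimpleGraph.dist_eq_one_iff_adj.2 hyx] at h3
    exact h3
  omega

theorem dist_inj (hconn : H.Connected) (hdeg : ∀ x, H.degree x ≤ 2) (r : W)
    (hr : H.degree r ≤ 1) : ∀ (n : ℕ) (x y : W), H.dist r x = n → H.dist r y = n → x = y := by
  intro n
  induction n using Nat.strong_induction_on with
  | _ n ih =>
    intro x y hx hy
    by_contra hxy
    rcases Nat.eq_zero_or_pos n with rfl | hn
    · rw [hconn.dist_eq_zero_iff] at hx hy
      exact hxy (hx.symm.trans hy)
    · obtain ⟨k, rfl⟩ : ∃ k, n = k + 1 := ⟨n - 1, by omega⟩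
      obtain ⟨x', hx', hdx⟩ := exists_pred hconn r x k hx
      obtain ⟨y', hy', hdy⟩ := exists_pred hconn r y k hy
      have h1 := ih k (by omega) x' y' hdx hdy
      subst h1
      rcases Nat.eq_zero_or_pos k with rfl | hk
      · rw [hconn.dist_eq_zero_iff] at hdx
        subst hdx
        exact hxy (two_nbrs_leaf hr hx' hy')
      · obtain ⟨j, rfl⟩ : ∃ j, k = j + 1 := ⟨k - 1, by omega⟩
        obtain ⟨z, hz, hdz⟩ := exists_pred hconn r x' j hdx
        refine three_nbrs hdeg hx' hy' hz.symm hxy ?_ ?_
        · rintro rfl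
          omega
        · rintro rfl
          omega

theorem dist_surj (hconn : H.Connected) (hdeg : ∀ x, H.degree x ≤ 2) (r : W)
    (hr : H.degree r ≤ 1) (hinf : Infinite W) (n : ℕ) : ∃ x, H.dist r x = n := by
  have hdown : ∀ (k : ℕ) (x : W), H.dist r x = n + k → ∃ y, H.dist r y = n := by
    intro k
    induction k with
    | zero => intro x hx; exact ⟨x, by simpa using hx⟩
    | succ k ih =>
      intro x hx
      obtain ⟨y, -, hy⟩ := exists_pred hconn r x (n + k) (by omega)
      exact ih y hy
  by_contra hcon
  have hlt : ∀ x, H.dist r x < n := by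
    intro x
    by_contra h
    push Not at h
    exact hcon (hdown (H.dist r x - n) x (by omega))
  have : Finite W := by
    refine Finite.of_injective (fun x => (⟨H.dist r x, hlt x⟩ : Fin n)) ?_
    intro x y hxy
    have h1 : H.dist r x = H.dist r y := congrArg Fin.val hxy
    exact dist_inj hconn hdeg r hr _ x y h1 rfl
  exact not_finite W

end leaf

end R199.LineG
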