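import Mathlib
import Pool.Agent.R199.LineG.Ray

set_option autoImplicit false

namespace R199.LineG

universe u

open Cardinal

theorem LG.ex_pair {V : Type u} {G : SimpleGraph V} (L : LG G) (x : V) :
    ∃ a b, L.E x = s(a, b) := by
  induction hE : L.E x using Sym2.ind with
  | _ a b => exact ⟨a, b, rfl⟩

section ray

variable {W : Type u} {H : SimpleGraph W} [∀ v, Fintype (H.neighborSet v)]

theorem ray_of_leaf (L : LG H) (hconn : H.Connected) (hdeg : ∀ x, H.degree x ≤ 2) (r : W)
    (hr : H.degree r ≤ 1) : ∃ ρ : ℕ → W, Function.Injective ρ ∧ Function.Surjective ρ ∧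
      (∀ n, H.Adj (ρ n) (ρ (n + 1))) ∧ (∀ n, L.E (ρ n) = s(ρ n, ρ (n + 1))) ∧
      (∀ z, H.Adj (ρ 0) z → z = ρ 1) ∧
      (∀ n z, H.Adj (ρ (n + 1)) z → z = ρ n ∨ z = ρ (n + 2)) := by
  have hinf := L.infinite_of_leaf hdeg r hr
  choose ρ hρ using dist_surj hconn hdeg r hr hinf
  have hinj : Function.Injective ρ := by
    intro m n h
    rw [← hρ m, ← hρ n, h]
  have hsurj : Function.Surjective ρ := fun x =>
    ⟨H.dist r x, dist_inj hconn hdeg r hr _ _ _ (hρ _) rfl⟩
  have h0 : ρ 0 = r := by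
    have := hρ 0
    rw [hconn.dist_eq_zero_iff] at this
    exact this.symm
  have hadj : ∀ n, H.Adj (ρ n) (ρ (n + 1)) := by
    intro n
    obtain ⟨y, hy, hd⟩ := exists_pred hconn r (ρ (n + 1)) n (hρ (n + 1))
    rw [dist_inj hconn hdeg r hr n (ρ n) y (hρ n) hd]
    exact hy
  have hn0 : ∀ z, H.Adj (ρ 0) z → z = ρ 1 := by
    intro z hz
    have h1 := hadj 0
    rw [h0] at hz h1
    exact two_nbrs_leaf hr hz h1
  have hns : ∀ n z, H.Adj (ρ (n + 1)) z → z = ρ n ∨ z = ρ (n + 2) := by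
    intro n z hz
    by_contra hcon
    push Not at hcon
    refine three_nbrs hdeg hz (hadj n).symm (hadj (n + 1)) hcon.1 hcon.2 ?_
    intro h
    have := hinj h
    omega
  refine ⟨ρ, hinj, hsurj, hadj, ?_, hn0, hns⟩
  have hleaf : ∀ x, H.degree x ≤ 1 → x = ρ 0 := by
    intro x hx
    obtain ⟨n, rfl⟩ := hsurj x
    rcases n with _ | n
    · rfl
    · exfalso
      have h1 := two_nbrs_leaf hx (hadj n).symm (hadj (n + 1))
      have := hinj h1
      omega
  have hbase : L.E (ρ 0) = s(ρ 0, ρ 1) := by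
    obtain ⟨a, b, hab⟩ := L.ex_pair (ρ 0)
    have hadj' : H.Adj a b := by
      have := L.mem (ρ 0)
      rw [hab] at this
      exact this
    have h1 := L.deg_nbr hab
    rw [h0] at h1
    rcases le_or_gt (H.degree a) 1 with h | h
    · have ha := hleaf a h
      subst ha
      rw [hab, hn0 b hadj']
    · have hb := hleaf b (by omega)
      subst hb
      rw [hab, hn0 a hadj'.symm, Sym2.eq_swap]
  intro n
  induction n using Nat.strong_induction_on with
  | _ n ih =>
    rcases n with _ | n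
    · exact hbase
    · obtain ⟨hne, w, hw1, hw2⟩ := (L.adj _ _).1 (hadj n)
      obtain ⟨z, hz⟩ := Sym2.mem_iff_exists.1 hw2
      have hwz : H.Adj w z := by
        have := L.mem (ρ (n + 1))
        rw [hz] at this
        exact this
      have ihn := ih n (by omega)
      rw [ihn, Sym2.mem_iff] at hw1
      rcases hw1 with rfl | rfl
      · exfalso
        rcases n with _ | k
        · have h1 := hn0 z hwz
          subst h1
          exact hne (L.inj (ihn.trans hz.symm))
        · rcases hns k z hwz with rfl | rfl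
          · have h2 := ih k (by omega)
            have h3 : L.E (ρ k) = L.E (ρ (k + 1 + 1)) := by
              rw [h2, hz, Sym2.eq_swap]
            have := hinj (L.inj h3)
            omega
          · exact hne (L.inj (ihn.trans hz.symm))
      · rcases hns n z hwz with rfl | rfl
        · exfalso
          exact hne (L.inj (ihn.trans (Sym2.eq_swap.trans hz.symm)))
        · exact hz

end ray

theorem LG.excess {V : Type u} {G : SimpleGraph V} (L : LG G) (D : Set V) (h : Cl L D)
    (hfin : ∀ x ∈ D, (G.neighborSet x).Finite) {x a b : V} (hx : x ∈ D)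
    (hab : L.E x = s(a, b)) :
    (G.neighborSet x \ D).ncard = (G.neighborSet a \ D).ncard + (G.neighborSet b \ D).ncard := by
  have ha : a ∈ D := (h.iff x).1 hx a (by rw [hab]; simp)
  have hb : b ∈ D := (h.iff x).1 hx b (by rw [hab]; simp)
  have hadj : G.Adj a b := by
    have := L.mem x
    rw [hab] at this
    exact this
  have hmem : ∀ c z : V, c ∈ D → G.Adj c z → (L.p c z ∈ D ↔ z ∈ D) := by
    intro c z hc hcz
    rw [h.iff, L.p_spec hcz]
    constructor
    · intro h1
      exact h1 z (by simp)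
    · intro h1 w hw
      rw [Sym2.mem_iff] at hw
      rcases hw with rfl | rfl
      · exact hc
      · exact h1
  have hset : G.neighborSet x \ D = L.p a '' (G.neighborSet a \ D) ∪
      L.p b '' (G.neighborSet b \ D) := by
    ext y
    constructor
    · rintro ⟨hy1, hy2⟩
      rcases L.nbr_sub hab hy1 with ⟨z, hz, rfl⟩ | ⟨z, hz, rfl⟩
      · exact Or.inl ⟨z, ⟨hz, fun hzD => hy2 ((hmem a z ha hz).2 hzD)⟩, rfl⟩
      · exact Or.inr ⟨z, ⟨hz, fun hzD => hy2 ((hmem b z hb hz).2 hzD)⟩, rfl⟩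
    · rintro (⟨z, ⟨hz1, hz2⟩, rfl⟩ | ⟨z, ⟨hz1, hz2⟩, rfl⟩)
      · have h1 : L.p a z ∉ D := fun hD => hz2 ((hmem a z ha hz1).1 hD)
        refine ⟨?_, h1⟩
        rcases L.sub_nbr (x := x) (a := a) (by rw [hab]; simp) ⟨z, hz1, rfl⟩ with h2 | h2
        · exact absurd (h2 ▸ hx) h1
        · exact h2
      · have h1 : L.p b z ∉ D := fun hD => hz2 ((hmem b z hb hz1).1 hD)
        refine ⟨?_, h1⟩
        rcases L.sub_nbr (x := x) (a := b) (by rw [hab]; simp) ⟨z, hz1, rfl⟩ with h2 | h2
        · exact absurd (h2 ▸ hx) h1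
        · exact h2
  have hdisj : Disjoint (L.p a '' (G.neighborSet a \ D)) (L.p b '' (G.neighborSet b \ D)) := by
    rw [Set.disjoint_left]
    rintro _ ⟨z, ⟨hz1, hz2⟩, rfl⟩ ⟨z', ⟨hz1', hz2'⟩, he⟩
    have h1 := L.p_spec (show G.Adj b z' from hz1')
    rw [he, L.p_spec (show G.Adj a z from hz1), Sym2.eq_iff] at h1
    rcases h1 with ⟨h1, h2⟩ | ⟨h1, h2⟩
    · exact hadj.ne h1
    · exact hz2 (h2 ▸ hb)
  rw [hset, Set.ncard_union_eq hdisj (((hfin a ha).subset Set.diff_subset).image _)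
    (((hfin b hb).subset Set.diff_subset).image _),
    Set.ncard_image_of_injOn fun _ hz _ hz' he => L.p_inj hz.1 hz'.1 he,
    Set.ncard_image_of_injOn fun _ hz _ hz' he => L.p_inj hz.1 hz'.1 he]

theorem ray {V : Type u} {G : SimpleGraph V} (L : LG G) (hconn : G.Connected)
    (hI : ∃ x, (G.neighborSet x).Infinite) (hF : ∃ x, (G.neighborSet x).Finite) :
    ∃ r : ℕ → V, Function.Injective r ∧ Set.range r = {x | (G.neighborSet x).Finite} ∧
      (∀ n, L.E (r n) = s(r n, r (n + 1))) ∧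
      (∀ n, G.neighborSet (r (n + 1)) = {r n, r (n + 2)}) ∧
      G.neighborSet (r 0) ∩ {x | (G.neighborSet x).Finite} = {r 1} := by
  classical
  have hDeq : {x | (G.neighborSet x).Finite} = {x | #(G.neighborSet x) < ℵ₀} := by
    ext x
    simp only [Set.mem_setOf_eq, lt_aleph0_iff_set_finite]
  have hcl : Cl L {x | (G.neighborSet x).Finite} := by
    rw [hDeq]
    exact L.cl_card ℵ₀ le_rfl
  set D : Set V := {x | (G.neighborSet x).Finite} with hD
  set L' := L.restrict D hcl with hL'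
  have hmap : ∀ x : D, (L'.E x).map Subtype.val = L.E x.1 := fun x => L.restrict_map D hcl x
  have hfin : ∀ v : D, Finite ((G.induce D).neighborSet v) := by
    intro v
    have hv : (G.neighborSet v.1).Finite := v.2
    have := hv.to_subtype
    refine Finite.of_injective
      (fun y : (G.induce D).neighborSet v => (⟨y.1.1, y.2⟩ : G.neighborSet v.1)) ?_
    intro y z h
    exact Subtype.ext (Subtype.ext (congrArg (fun t : G.neighborSet v.1 => t.1) h))
  have : ∀ v : D, Fintype ((G.induce D).neighborSet v) := fun v => Fintype.ofFinite _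
  obtain ⟨x0, hx0⟩ := hF
  have hconn' : (G.induce D).Connected := by
    have : Nonempty D := ⟨⟨x0, hx0⟩⟩
    refine ⟨fun x y => ?_⟩
    obtain ⟨w⟩ := hconn x.1 y.1
    exact L.reach_closed D hcl w.length x y w le_rfl
  have hdeg : ∀ x, (G.induce D).degree x ≤ 2 := fun x => L'.deg_le_two _ x rfl
  have hex : ∀ x a b : D, L'.E x = s(a, b) → (G.neighborSet x.1 \ D).ncard =
      (G.neighborSet a.1 \ D).ncard + (G.neighborSet b.1 \ D).ncard := by
    intro x a b hab
    refine L.excess D hcl (fun x hx => hx) x.2 ?_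
    rw [← hmap x, hab]
    rfl
  have hpos : ∃ n : ℕ, 1 ≤ n ∧ ∃ x : D, (G.neighborSet x.1 \ D).ncard = n := by
    obtain ⟨y0, hy0⟩ := hI
    obtain ⟨w⟩ := hconn x0 y0
    obtain ⟨d, -, hd1, hd2⟩ := w.exists_boundary_dart D hx0 hy0
    refine ⟨_, ?_, ⟨⟨d.fst, hd1⟩, rfl⟩⟩
    have hfin1 : (G.neighborSet d.fst \ D).Finite := Set.Finite.subset hd1 Set.diff_subset
    exact (Set.ncard_pos hfin1).2 ⟨d.snd, d.adj, hd2⟩
  obtain ⟨hm1, x1, hx1⟩ := Nat.find_spec hpos
  have hmin : ∀ y : D, 1 ≤ (G.neighborSet y.1 \ D).ncard →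
      Nat.find hpos ≤ (G.neighborSet y.1 \ D).ncard := fun y hy =>
    Nat.find_min' hpos ⟨hy, y, rfl⟩
  obtain ⟨r, hr⟩ := L'.leaf_of_excess (fun x : D => (G.neighborSet x.1 \ D).ncard) hex
    (Nat.find hpos) hm1 hmin _ x1 hx1 rfl
  obtain ⟨ρ, hinj, hsurj, hadj, hE, hn0, hns⟩ := ray_of_leaf L' hconn' hdeg r hr
  have hzero : ∀ n, G.neighborSet (ρ (n + 1)).1 ⊆ D := by
    intro n
    have h1 := hex (ρ n) (ρ n) (ρ (n + 1)) (hE n)
    have hfin1 : (G.neighborSet (ρ (n + 1)).1 \ D).Finite :=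
      Set.Finite.subset (ρ (n + 1)).2 Set.diff_subset
    have h2 : (G.neighborSet (ρ (n + 1)).1 \ D).ncard = 0 := by omega
    rw [Set.ncard_eq_zero hfin1, Set.diff_eq_empty] at h2
    exact h2
  refine ⟨fun n => (ρ n).1, fun m n h => hinj (Subtype.ext h), ?_, ?_, ?_, ?_⟩
  · ext x
    constructor
    · rintro ⟨n, rfl⟩
      exact (ρ n).2
    · intro hx
      obtain ⟨n, hn⟩ := hsurj ⟨x, hx⟩
      exact ⟨n, congrArg Subtype.val hn⟩
  · intro n
    rw [← hmap (ρ n), hE n]
    rfl
  · intro n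
    ext z
    constructor
    · intro hz
      have hzD := hzero n hz
      rcases hns n ⟨z, hzD⟩ hz with h | h
      · exact Or.inl (congrArg Subtype.val h)
      · exact Or.inr (congrArg Subtype.val h)
    · rintro (rfl | rfl)
      · exact (hadj n).symm
      · exact hadj (n + 1)
  · ext z
    constructor
    · rintro ⟨hz1, hz2⟩
      exact congrArg Subtype.val (hn0 ⟨z, hz2⟩ hz1)
    · rintro rfl
      exact ⟨hadj 0, (ρ 1).2⟩

end R199.LineG
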